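import Mathlib

set_option autoImplicit false

namespace Pool.Agent.Work.N6eec66

open Finset

theorem sign_choice (A : ℕ → ℕ → ℝ) (K n : ℕ) :
    ∃ ε : ℕ → ℝ, (∀ i, |ε i| = 1) ∧
      ∑ k ∈ range K, (∑ i ∈ range n, ε i * A i k) ^ 2 ≤
        ∑ i ∈ range n, ∑ k ∈ range K, (A i k) ^ 2 := by
  induction' n with n ih
  · exact ⟨fun _ => 1, fun _ => by simp, by simp⟩
  · obtain ⟨ε, hε, h⟩ := ih
    obtain ⟨δ, hδ1, hδ2⟩ : ∃ δ : ℝ, |δ| = 1 ∧
        δ * (∑ k ∈ range K, (∑ i ∈ range n, ε i * A i k) * A n k) ≤ 0 := by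
      by_cases hs : 0 ≤ ∑ k ∈ range K, (∑ i ∈ range n, ε i * A i k) * A n k
      · exact ⟨-1, by simp, by linarith⟩
      · exact ⟨1, by simp, by linarith⟩
    refine ⟨Function.update ε n δ, ?_, ?_⟩
    · intro i
      by_cases hi : i = n
      · subst hi; rw [Function.update_self]; exact hδ1
      · rw [Function.update_of_ne hi]; exact hε i
    · have h1 : ∀ k, ∑ i ∈ range (n+1), Function.update ε n δ i * A i k =
          (∑ i ∈ range n, ε i * A i k) + δ * A n k := by
        intro k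
        rw [Finset.sum_range_succ, Function.update_self]
        congr 1
        refine Finset.sum_congr rfl (fun i hi => ?_)
        rw [Function.update_of_ne (Finset.mem_range.1 hi).ne]
      have h2 : ∑ k ∈ range K, (∑ i ∈ range (n+1), Function.update ε n δ i * A i k) ^ 2 =
          ∑ k ∈ range K, (∑ i ∈ range n, ε i * A i k) ^ 2 +
          2 * (δ * ∑ k ∈ range K, (∑ i ∈ range n, ε i * A i k) * A n k) +
          ∑ k ∈ range K, (A n k) ^ 2 := by
        rw [Finset.mul_sum, Finset.mul_sum, ← Finset.sum_add_distrib, ← Finset.sum_add_distrib]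
        refine Finset.sum_congr rfl (fun k _ => ?_)
        rw [h1 k]
        have h3 : δ ^ 2 = 1 := by rw [← sq_abs, hδ1]; norm_num
        linear_combination (A n k) ^ 2 * h3
      rw [h2, Finset.sum_range_succ]
      linarith

variable {V : Type*} [NormedAddCommGroup V] [NormedSpace ℝ V]

theorem upper_scaled (y : ℕ → V)
    (hU : ∀ (a : ℕ → ℝ) (K : ℕ), ∑ k ∈ range K, a k ^ 2 ≤ 1 → ‖∑ k ∈ range K, a k • y k‖ ≤ 24)
    (a : ℕ → ℝ) (K : ℕ) {R : ℝ} (hR : 0 < R) (h : ∑ k ∈ range K, a k ^ 2 ≤ R ^ 2) :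
    ‖∑ k ∈ range K, a k • y k‖ ≤ 24 * R := by
  have h1 := hU (fun k => R⁻¹ * a k) K (by
    have : ∑ k ∈ range K, (R⁻¹ * a k) ^ 2 = (R⁻¹) ^ 2 * ∑ k ∈ range K, a k ^ 2 := by
      rw [Finset.mul_sum]; exact Finset.sum_congr rfl (fun k _ => by ring)
    rw [this]
    calc (R⁻¹) ^ 2 * ∑ k ∈ range K, a k ^ 2 ≤ (R⁻¹) ^ 2 * R ^ 2 := by gcongr
      _ = 1 := by field_simp)
  have h2 : ∑ k ∈ range K, (R⁻¹ * a k) • y k = R⁻¹ • ∑ k ∈ range K, a k • y k := by
    rw [Finset.smul_sum]; exact Finset.sum_congr rfl (fun k _ => by rw [mul_smul])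
  rw [h2, norm_smul, Real.norm_eq_abs, abs_of_pos (inv_pos.2 hR)] at h1
  rw [inv_mul_le_iff₀ hR] at h1
  linarith

theorem lower_scaled (y : ℕ → V)
    (hL : ∀ (a : ℕ → ℝ) (K : ℕ), ∑ k ∈ range K, a k ^ 2 = 1/4 → 1/18 ≤ ‖∑ k ∈ range K, a k • y k‖)
    (a : ℕ → ℝ) (K : ℕ) {R : ℝ} (h : ‖∑ k ∈ range K, a k • y k‖ ≤ R) :
    ∑ k ∈ range K, a k ^ 2 ≤ 81 * R ^ 2 := by
  set q := ∑ k ∈ range K, a k ^ 2 with hq
  have hq0 : 0 ≤ q := Finset.sum_nonneg (fun _ _ => sq_nonneg _)
  rcases hq0.eq_or_lt with h0 | h0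
  · rw [← h0]; positivity
  · set s := Real.sqrt q with hs
    have hs0 : 0 < s := Real.sqrt_pos.2 h0
    have hss : s ^ 2 = q := Real.sq_sqrt hq0
    have h1 := hL (fun k => (2 * s)⁻¹ * a k) K (by
      have : ∑ k ∈ range K, ((2 * s)⁻¹ * a k) ^ 2 = ((2 * s)⁻¹) ^ 2 * ∑ k ∈ range K, a k ^ 2 := by
        rw [Finset.mul_sum]; exact Finset.sum_congr rfl (fun k _ => by ring)
      rw [this, ← hq, ← hss]
      field_simp
      norm_num)
    have h2 : ∑ k ∈ range K, ((2 * s)⁻¹ * a k) • y k = (2 * s)⁻¹ • ∑ k ∈ range K, a k • y k := by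
      rw [Finset.smul_sum]; exact Finset.sum_congr rfl (fun k _ => by rw [mul_smul])
    rw [h2, norm_smul, Real.norm_eq_abs, abs_of_pos (inv_pos.2 (by positivity))] at h1
    rw [le_inv_mul_iff₀ (by positivity)] at h1
    have h3 : s ≤ 9 * R := by linarith
    rw [← hss]
    nlinarith

theorem no_l1 (y : ℕ → V)
    (hU : ∀ (a : ℕ → ℝ) (K : ℕ), ∑ k ∈ range K, a k ^ 2 ≤ 1 → ‖∑ k ∈ range K, a k • y k‖ ≤ 24)
    (hL : ∀ (a : ℕ → ℝ) (K : ℕ), ∑ k ∈ range K, a k ^ 2 = 1/4 → 1/18 ≤ ‖∑ k ∈ range K, a k • y k‖)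
    (f : ℕ → V) (c : ℝ) (hc : 0 < c)
    (hf : ∀ i, f i ∈ (Submodule.span ℝ (Set.range y)).topologicalClosure ∧ ‖f i‖ ≤ 1)
    (hlow : ∀ (n : ℕ) (a : ℕ → ℝ),
      c * ∑ i ∈ range n, |a i| ≤ ‖∑ i ∈ range n, a i • f i‖) : False := by
  -- approximants
  have happ : ∀ i, ∃ (K : ℕ) (A : ℕ → ℝ), ‖f i - ∑ k ∈ range K, A k • y k‖ ≤ c / 2 := by
    intro i
    have h1 : f i ∈ closure (Submodule.span ℝ (Set.range y) : Set V) := (hf i).1
    obtain ⟨g, hg, hd⟩ := Metric.mem_closure_iff.1 h1 (c/2) (by positivity)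
    rw [SetLike.mem_coe, Finsupp.mem_span_range_iff_exists_finsupp] at hg
    obtain ⟨A, hA⟩ := hg
    refine ⟨A.support.sup id + 1, A, ?_⟩
    have h2 : ∑ k ∈ range (A.support.sup id + 1), A k • y k = g := by
      rw [← hA, Finsupp.sum]
      symm
      refine Finset.sum_subset ?_ ?_
      · intro k hk
        rw [Finset.mem_range]
        have : id k ≤ A.support.sup id := Finset.le_sup hk
        simp only [id] at this
        omega
      · intro k _ hk
        rw [Finsupp.notMem_support_iff.1 hk, zero_smul]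
    rw [h2, ← dist_eq_norm]
    exact hd.le
  choose K A hKA using happ
  have key : ∀ m : ℕ, 1 ≤ m → (c / 2) * m ≤ 216 * (1 + c / 2) := by
    intro m hm
    have hm' : (0:ℝ) < m := by exact_mod_cast hm
    set n := m * m with hn
    set L := (range n).sup K with hL'
    have hKL : ∀ i ∈ range n, K i ≤ L := fun i hi => Finset.le_sup hi
    set B : ℕ → ℕ → ℝ := fun i k => if k < K i then A i k else 0 with hB
    have hsum : ∀ i ∈ range n, ∑ k ∈ range L, B i k • y k = ∑ k ∈ range (K i), A i k • y k := by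
      intro i hi
      have h1 : ∑ k ∈ range (K i), A i k • y k = ∑ k ∈ range (K i), B i k • y k := by
        refine Finset.sum_congr rfl (fun k hk => ?_)
        rw [hB]
        simp only
        rw [if_pos (Finset.mem_range.1 hk)]
      rw [h1]
      symm
      refine Finset.sum_subset (Finset.range_subset_range.2 (hKL i hi)) ?_
      intro k _ hk
      rw [Finset.mem_range] at hk
      rw [hB]
      simp only
      rw [if_neg hk, zero_smul]
    have hQ : ∀ i ∈ range n, ∑ k ∈ range L, B i k ^ 2 ≤ 81 * (1 + c / 2) ^ 2 := by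
      intro i hi
      refine lower_scaled y hL (B i) L ?_
      rw [hsum i hi]
      have h1 : ∑ k ∈ range (K i), A i k • y k = f i - (f i - ∑ k ∈ range (K i), A i k • y k) := by
        abel
      rw [h1]
      refine (norm_sub_le _ _).trans ?_
      exact add_le_add (hf i).2 (hKA i)
    obtain ⟨ε, hε, hs⟩ := sign_choice B L n
    have h2 : ∑ i ∈ range n, ∑ k ∈ range L, (B i k) ^ 2 ≤ (9 * m * (1 + c / 2)) ^ 2 := by
      refine (Finset.sum_le_sum hQ).trans ?_
      rw [Finset.sum_const, Finset.card_range, nsmul_eq_mul, hn]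
      push_cast
      apply le_of_eq
      ring
    have h3 := upper_scaled y hU (fun k => ∑ i ∈ range n, ε i * B i k) L
      (R := 9 * m * (1 + c / 2)) (by positivity) (hs.trans h2)
    have h4 : ∑ k ∈ range L, (∑ i ∈ range n, ε i * B i k) • y k =
        ∑ i ∈ range n, ε i • ∑ k ∈ range (K i), A i k • y k := by
      simp only [Finset.sum_smul]
      rw [Finset.sum_comm]
      refine Finset.sum_congr rfl (fun i hi => ?_)
      rw [← hsum i hi, Finset.smul_sum]
      exact Finset.sum_congr rfl (fun k _ => by rw [mul_smul])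
    rw [h4] at h3
    have h5 : ‖∑ i ∈ range n, ε i • (f i - ∑ k ∈ range (K i), A i k • y k)‖ ≤ n * (c / 2) := by
      refine (norm_sum_le _ _).trans ?_
      refine (Finset.sum_le_sum (g := fun _ => c / 2) (fun i _ => ?_)).trans ?_
      · rw [norm_smul, Real.norm_eq_abs, hε, one_mul]
        exact hKA i
      · rw [Finset.sum_const, Finset.card_range, nsmul_eq_mul]
    have h6 := hlow n ε
    have h7 : ∑ i ∈ range n, |ε i| = n := by
      rw [Finset.sum_congr rfl (fun i _ => hε i)]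
      simp
    rw [h7] at h6
    have h8 : ∑ i ∈ range n, ε i • f i =
        ∑ i ∈ range n, ε i • (f i - ∑ k ∈ range (K i), A i k • y k) +
        ∑ i ∈ range n, ε i • ∑ k ∈ range (K i), A i k • y k := by
      rw [← Finset.sum_add_distrib]
      refine Finset.sum_congr rfl (fun i _ => ?_)
      rw [← smul_add, sub_add_cancel]
    rw [h8] at h6
    have h9 := h6.trans (norm_add_le _ _)
    have h10 : c * n ≤ n * (c / 2) + 24 * (9 * m * (1 + c / 2)) := by linarith
    have h11 : (n:ℝ) = m * m := by rw [hn]; push_cast; ring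
    rw [h11] at h10
    have h12 : m * ((c / 2) * m) ≤ m * (216 * (1 + c / 2)) := by nlinarith
    exact le_of_mul_le_mul_left h12 hm'
  obtain ⟨m, hm⟩ := exists_nat_gt (216 * (1 + c / 2) / (c / 2))
  rw [div_lt_iff₀ (by positivity)] at hm
  have h1 : 1 ≤ m := by
    by_contra h
    have : m = 0 := by omega
    subst this
    simp only [Nat.cast_zero, zero_mul] at hm
    linarith
  have := key m h1
  linarith

theorem infinite_dim (y : ℕ → V)
    (hL : ∀ (a : ℕ → ℝ) (K : ℕ), ∑ k ∈ range K, a k ^ 2 = 1/4 → 1/18 ≤ ‖∑ k ∈ range K, a k • y k‖) :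
    ¬ FiniteDimensional ℝ (Submodule.span ℝ (Set.range y)).topologicalClosure := by
  intro hfd
  set Y := (Submodule.span ℝ (Set.range y)).topologicalClosure with hY
  have hmem : ∀ k, y k ∈ Y := fun k => Submodule.le_topologicalClosure _ (Submodule.subset_span ⟨k, rfl⟩)
  have hli : LinearIndependent ℝ y := by
    rw [linearIndependent_iff']
    intro s g hg i hi
    set K := s.sup id + 1 with hK
    set a : ℕ → ℝ := fun k => if k ∈ s then g k else 0 with ha
    have h1 : ∑ k ∈ range K, a k • y k = 0 := by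
      rw [← hg]
      symm
      have h2 : ∑ k ∈ s, g k • y k = ∑ k ∈ s, a k • y k := by
        refine Finset.sum_congr rfl (fun k hk => ?_)
        rw [ha]; simp only; rw [if_pos hk]
      rw [h2]
      refine Finset.sum_subset ?_ ?_
      · intro k hk
        rw [Finset.mem_range]
        have : id k ≤ s.sup id := Finset.le_sup hk
        simp only [id] at this
        omega
      · intro k _ hk
        rw [ha]; simp only; rw [if_neg hk, zero_smul]
    have h3 := lower_scaled y hL a K (R := 0) (by rw [h1, norm_zero])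
    have h4 : a i ^ 2 ≤ ∑ k ∈ range K, a k ^ 2 := by
      refine Finset.single_le_sum (f := fun k => a k ^ 2) (fun _ _ => sq_nonneg _) ?_
      rw [Finset.mem_range]
      have : id i ≤ s.sup id := Finset.le_sup hi
      simp only [id] at this
      omega
    have h5 : a i ^ 2 = 0 := by
      have := sq_nonneg (a i)
      linarith
    have h6 : a i = 0 := by
      exact pow_eq_zero_iff (two_ne_zero) |>.1 h5
    rw [ha] at h6
    simp only at h6
    rwa [if_pos hi] at h6
  have hli2 : LinearIndependent ℝ (fun k => (⟨y k, hmem k⟩ : Y)) := by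
    apply LinearIndependent.of_comp Y.subtype
    exact hli
  have hfin := hli2.finite
  exact not_finite ℕ

end Pool.Agent.Work.N6eec66
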