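import Mathlib
import Pool.Agent.Work.MP_6eec66_an.Final
set_option autoImplicit false

namespace Pool.Agent.Work.N6eec66

theorem frame (𝓕 : Set (Finset ℕ))
    (h1 : ∀ A ∈ 𝓕, ∀ B : Finset ℕ, B ⊆ A → B ∈ 𝓕)
    (h2 : ∀ i : ℕ, ({i} : Finset ℕ) ∈ 𝓕)
    (h3 : ∀ M : Set ℕ, M.Infinite → ∃ A : Finset ℕ, (↑A : Set ℕ) ⊆ M ∧ A ∉ 𝓕)
    (E : Type) [NormedAddCommGroup E] [NormedSpace ℝ E] [CompleteSpace E] (e : ℕ → E)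
    (h4 : Dense (Submodule.span ℝ (Set.range e) : Set E))
    (h5 : ∀ (n : ℕ) (a : ℕ → ℝ),
        ‖∑ i ∈ Finset.range n, a i • e i‖ =
          sSup ((fun F : Finset ℕ => ∑ i ∈ F ∩ Finset.range n, |a i|) '' 𝓕))
    (y : ℕ → (E →L[ℝ] ℝ))
    (hU : ∀ (a : ℕ → ℝ) (K : ℕ), ∑ k ∈ Finset.range K, a k ^ 2 ≤ 1 →
      ‖∑ k ∈ Finset.range K, a k • y k‖ ≤ 24)
    (hL : ∀ (a : ℕ → ℝ) (K : ℕ), ∑ k ∈ Finset.range K, a k ^ 2 = 1/4 →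
      1/18 ≤ ‖∑ k ∈ Finset.range K, a k • y k‖) :
    ¬ (∀ (𝓕 : Set (Finset ℕ)),
    (∀ A ∈ 𝓕, ∀ B : Finset ℕ, B ⊆ A → B ∈ 𝓕) →
    (∀ i : ℕ, ({i} : Finset ℕ) ∈ 𝓕) →
    (∀ M : Set ℕ, M.Infinite → ∃ A : Finset ℕ, (↑A : Set ℕ) ⊆ M ∧ A ∉ 𝓕) →
    ∀ (E : Type) [NormedAddCommGroup E] [NormedSpace ℝ E] [CompleteSpace E] (e : ℕ → E),
      Dense (Submodule.span ℝ (Set.range e) : Set E) →
      (∀ (n : ℕ) (a : ℕ → ℝ),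
        ‖∑ i ∈ Finset.range n, a i • e i‖ =
          sSup ((fun F : Finset ℕ => ∑ i ∈ F ∩ Finset.range n, |a i|) '' 𝓕)) →
      ∀ Y : Submodule ℝ (E →L[ℝ] ℝ), IsClosed (Y : Set (E →L[ℝ] ℝ)) →
        ¬ FiniteDimensional ℝ Y →
        ∃ (f : ℕ → (E →L[ℝ] ℝ)) (c : ℝ), 0 < c ∧ (∀ i, f i ∈ Y ∧ ‖f i‖ ≤ 1) ∧
          ∀ (n : ℕ) (a : ℕ → ℝ),
            c * ∑ i ∈ Finset.range n, |a i| ≤ ‖∑ i ∈ Finset.range n, a i • f i‖) := by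
  intro h
  obtain ⟨f, c, hc, hf, hlow⟩ := h 𝓕 h1 h2 h3 E e h4 h5
    (Submodule.span ℝ (Set.range y)).topologicalClosure
    (Submodule.isClosed_topologicalClosure _)
    (infinite_dim y hL)
  exact no_l1 y hU hL f c hc hf hlow

end Pool.Agent.Work.N6eec66
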