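import Pool.Agent.Work.MP_6eec66_an.Family

set_option autoImplicit false

namespace Pool.Agent.Work.N6eec66

open Finset

/-- sign of a real -/
noncomputable def sgn (t : ℝ) : ℝ := if 0 ≤ t then 1 else -1

theorem mul_sgn (t : ℝ) : t * sgn t = |t| := by
  unfold sgn
  split_ifs with h
  · rw [mul_one, abs_of_nonneg h]
  · rw [abs_of_neg (by linarith)]; ring

theorem abs_sgn (t : ℝ) : |sgn t| = 1 := by
  unfold sgn; split_ifs <;> simp

open Classical in
/-- coefficients of the norming vector -/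
noncomputable def bfun (a : ℕ → ℝ) (K : ℕ) (g : List ℕ) : ℝ :=
  if (1 ≤ g.length ∧ g.length ≤ K ∧ 1 ≤ |a (g.length - 1)| * Wt (g.getD (g.length - 1) 0) ∧
      ∀ i < g.length - 1, |a i| * Wt (g.getD i 0) < 1) then sgn (a (g.length - 1)) else 0

theorem bfun_abs_le (a : ℕ → ℝ) (K : ℕ) (g : List ℕ) : |bfun a K g| ≤ 1 := by
  unfold bfun
  split_ifs
  · rw [abs_sgn]
  · simp

theorem getD_of_pfx {g g' : List ℕ} (h : g <+: g') {i : ℕ} (hi : i < g.length) :
    g'.getD i 0 = g.getD i 0 := by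
  obtain ⟨t, rfl⟩ := h
  rw [List.getD_append _ _ _ _ hi]

theorem bfun_antichain (a : ℕ → ℝ) (K : ℕ) {g g' : List ℕ} (h : g <+: g')
    (h1 : bfun a K g ≠ 0) (h2 : bfun a K g' ≠ 0) : g = g' := by
  classical
  have e1 : (1 ≤ g.length ∧ g.length ≤ K ∧ 1 ≤ |a (g.length - 1)| * Wt (g.getD (g.length - 1) 0) ∧
      ∀ i < g.length - 1, |a i| * Wt (g.getD i 0) < 1) := by
    by_contra hc
    exact h1 (by unfold bfun; rw [if_neg hc])
  have e2 : (1 ≤ g'.length ∧ g'.length ≤ K ∧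
      1 ≤ |a (g'.length - 1)| * Wt (g'.getD (g'.length - 1) 0) ∧
      ∀ i < g'.length - 1, |a i| * Wt (g'.getD i 0) < 1) := by
    by_contra hc
    exact h2 (by unfold bfun; rw [if_neg hc])
  rcases h.length_le.eq_or_lt with hl | hl
  · exact h.eq_of_length hl
  · exfalso
    have h3 := e2.2.2.2 (g.length - 1) (by omega)
    rw [getD_of_pfx h (by omega)] at h3
    linarith [e1.2.2.1]

/-- the norming vector -/
noncomputable def xv (a : ℕ → ℝ) (K N : ℕ) : XF Fam :=
  ∑ i ∈ range N, bfun a K (enc.symm i) • evec Fam i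

theorem xv_norm (a : ℕ → ℝ) (K N : ℕ) : ‖xv a K N‖ ≤ 1 := by
  classical
  unfold xv
  rw [norm_formula Fam Fam_empty N (fun i => bfun a K (enc.symm i))]
  refine csSup_le ⟨_, ⟨∅, Fam_empty, rfl⟩⟩ ?_
  rintro _ ⟨F, hF, rfl⟩
  dsimp only
  by_cases hall : ∀ i ∈ F ∩ range N, bfun a K (enc.symm i) = 0
  · rw [Finset.sum_eq_zero (fun i hi => by rw [hall i hi, abs_zero])]
    norm_num
  · push Not at hall
    obtain ⟨i₀, hi₀, hne⟩ := hall
    rw [Finset.sum_eq_single_of_mem i₀ hi₀]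
    · exact bfun_abs_le _ _ _
    · intro j hj hji
      by_contra hc
      have hc' : bfun a K (enc.symm j) ≠ 0 := fun h => hc (by rw [h, abs_zero])
      rw [Finset.mem_inter] at hi₀ hj
      rcases hF.1 i₀ hi₀.1 j hj.1 with h | h
      · exact hji (enc.symm.injective (bfun_antichain a K h hne hc')).symm
      · exact hji (enc.symm.injective (bfun_antichain a K h hc' hne))

theorem cf_xv (a : ℕ → ℝ) (K : ℕ) (g : List ℕ) {N : ℕ} (hN : enc g < N) :
    cf g (xv a K N) = bfun a K g := by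
  unfold xv cf
  rw [map_sum, Finset.sum_eq_single_of_mem (enc g) (Finset.mem_range.2 hN)]
  · rw [map_smul, coord_evec, if_pos rfl, smul_eq_mul, mul_one, Equiv.symm_apply_apply]
  · intro j _ hj
    rw [map_smul, coord_evec, if_neg (Ne.symm hj), smul_zero]

theorem yv_xv (a : ℕ → ℝ) (K k : ℕ) : ∀ᶠ N in Filter.atTop,
    yv k (xv a K N) = Ex (k+1) (fun s => Wt (s k) * bfun a K (pre s k)) := by
  have h := Ex_eventually (V := ℝ) (k+1) (fun N s => Wt (s k) * cf (pre s k) (xv a K N))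
    (fun s => Wt (s k) * bfun a K (pre s k)) (by
      intro s
      filter_upwards [Filter.eventually_gt_atTop (enc (pre s k))] with N hN
      rw [cf_xv a K _ hN])
  filter_upwards [h] with N hN
  rw [yv_apply, hN]

open Classical in
theorem bfun_pre (a : ℕ → ℝ) {K k : ℕ} (hk : k < K) (s : ℕ → ℕ) :
    a k * (Wt (s k) * bfun a K (pre s k)) =
      (if ∀ i < k, |a i| * Wt (s i) < 1 then (1:ℝ) else 0) *
        (|a k| * (Wt (s k) * (if 1 ≤ |a k| * Wt (s k) then (1:ℝ) else 0))) := by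
  have h1 : (1 ≤ (pre s k).length ∧ (pre s k).length ≤ K ∧
      1 ≤ |a ((pre s k).length - 1)| * Wt ((pre s k).getD ((pre s k).length - 1) 0) ∧
      ∀ i < (pre s k).length - 1, |a i| * Wt ((pre s k).getD i 0) < 1) ↔
      (1 ≤ |a k| * Wt (s k) ∧ ∀ i < k, |a i| * Wt (s i) < 1) := by
    rw [pre_length, Nat.add_sub_cancel, pre_getD s (le_refl k)]
    constructor
    · rintro ⟨_, _, h3, h4⟩
      refine ⟨h3, fun i hi => ?_⟩
      have := h4 i hi
      rwa [pre_getD s hi.le] at this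
    · rintro ⟨h3, h4⟩
      refine ⟨by omega, by omega, h3, fun i hi => ?_⟩
      rw [pre_getD s hi.le]
      exact h4 i hi
  unfold bfun
  rw [if_congr h1 rfl rfl, pre_length, Nat.add_sub_cancel]
  by_cases h3 : 1 ≤ |a k| * Wt (s k)
  · by_cases h4 : ∀ i < k, |a i| * Wt (s i) < 1
    · rw [if_pos ⟨h3, h4⟩, if_pos h4, if_pos h3]
      rw [one_mul, mul_one, ← mul_sgn (a k)]
      ring
    · rw [if_neg (fun h => h4 h.2), if_neg h4]
      ring
  · rw [if_neg (fun h => h3 h.1), if_neg h3]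
    ring

open Classical in
theorem Ex_small (a : ℕ → ℝ) (k : ℕ) :
    1 - (4/3) * ∑ i ∈ range k, a i ^ 2 ≤
      Ex k (fun s => if ∀ i < k, |a i| * Wt (s i) < 1 then (1:ℝ) else 0) := by
  have h1 : ∀ s : ℕ → ℕ, 1 + (-1:ℝ) • ∑ i ∈ range k, (if 1 ≤ |a i| * Wt (s i) then (1:ℝ) else 0) ≤
      (if ∀ i < k, |a i| * Wt (s i) < 1 then (1:ℝ) else 0) := by
    intro s
    have hnn : 0 ≤ ∑ i ∈ range k, (if 1 ≤ |a i| * Wt (s i) then (1:ℝ) else 0) :=
      Finset.sum_nonneg (fun i _ => by split_ifs <;> norm_num)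
    rw [smul_eq_mul]
    split_ifs with h
    · linarith
    · push Not at h
      obtain ⟨i, hi, h2⟩ := h
      have h3 : (if 1 ≤ |a i| * Wt (s i) then (1:ℝ) else 0) ≤
          ∑ i ∈ range k, (if 1 ≤ |a i| * Wt (s i) then (1:ℝ) else 0) :=
        Finset.single_le_sum (f := fun i => (if 1 ≤ |a i| * Wt (s i) then (1:ℝ) else 0))
          (fun i _ => by split_ifs <;> norm_num) (Finset.mem_range.2 hi)
      rw [if_pos h2] at h3
      linarith
  refine le_trans ?_ (Ex_mono k _ _ h1)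
  rw [Ex_add, Ex_const, Ex_smul, Ex_sum, smul_eq_mul]
  have h4 : ∀ i ∈ range k, Ex k (fun s => (if 1 ≤ |a i| * Wt (s i) then (1:ℝ) else 0)) ≤
      (4/3) * a i ^ 2 := by
    intro i hi
    rw [Ex_coord' i k (Finset.mem_range.1 hi) (fun l => if 1 ≤ |a i| * Wt l then (1:ℝ) else 0)]
    have := big_label (abs_nonneg (a i)) i
    rwa [sq_abs] at this
  have h5 := Finset.sum_le_sum h4
  rw [← Finset.mul_sum] at h5
  linarith

theorem lower_bound (a : ℕ → ℝ) (K : ℕ) (ha : ∑ k ∈ range K, a k ^ 2 = 1/4) :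
    1/18 ≤ ‖∑ k ∈ range K, a k • yv k‖ := by
  classical
  have hev : ∀ᶠ N in Filter.atTop, ∀ k ∈ range K,
      yv k (xv a K N) = Ex (k+1) (fun s => Wt (s k) * bfun a K (pre s k)) :=
    (Filter.eventually_all_finset (range K)).2 (fun k _ => yv_xv a K k)
  obtain ⟨N, hN⟩ := hev.exists
  have h1 : (∑ k ∈ range K, a k • yv k) (xv a K N) ≤ ‖∑ k ∈ range K, a k • yv k‖ := by
    refine (le_abs_self _).trans ?_
    refine (ContinuousLinearMap.le_opNorm (∑ k ∈ range K, a k • yv k) (xv a K N)).trans ?_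
    exact mul_le_of_le_one_right (norm_nonneg (∑ k ∈ range K, a k • yv k)) (xv_norm a K N)
  refine le_trans ?_ h1
  simp only [FunLike.coe_sum, FunLike.coe_smul, Finset.sum_apply, Pi.smul_apply, smul_eq_mul]
  have h2 : ∀ k ∈ range K, (2/3) * (a k ^ 2 / 2 - (1/4) ^ (k+2) / 2) ≤
      a k * yv k (xv a K N) := by
    intro k hk
    have h30 : a k * Ex (k+1) (fun s => Wt (s k) * bfun a K (pre s k)) =
        Ex (k+1) (fun s => a k • (Wt (s k) * bfun a K (pre s k))) := by
      rw [Ex_smul, smul_eq_mul]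
    rw [hN k hk, h30]
    have h3 : (fun s : ℕ → ℕ => a k • (Wt (s k) * bfun a K (pre s k))) =
        fun s => (if ∀ i < k, |a i| * Wt (s i) < 1 then (1:ℝ) else 0) *
        (fun l => |a k| * (Wt l * (if 1 ≤ |a k| * Wt l then (1:ℝ) else 0))) (s k) := by
      funext s
      rw [smul_eq_mul, bfun_pre a (Finset.mem_range.1 hk) s]
    rw [h3, Ex_mul_last k (fun s : ℕ → ℕ => if ∀ i < k, |a i| * Wt (s i) < 1 then (1:ℝ) else 0)
      (fun l => |a k| * (Wt l * (if 1 ≤ |a k| * Wt l then (1:ℝ) else 0))) (by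
      intro s l
      have : (∀ i < k, |a i| * Wt (Function.update s k l i) < 1) ↔
          (∀ i < k, |a i| * Wt (s i) < 1) := by
        refine forall_congr' (fun i => forall_congr' (fun hi => ?_))
        rw [Function.update_of_ne (by omega)]
      simp only [this])]
    have h4 : (2/3 : ℝ) ≤
        Ex k (fun s => if ∀ i < k, |a i| * Wt (s i) < 1 then (1:ℝ) else 0) := by
      refine le_trans ?_ (Ex_small a k)
      have : ∑ i ∈ range k, a i ^ 2 ≤ ∑ i ∈ range K, a i ^ 2 :=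
        Finset.sum_le_sum_of_subset_of_nonneg
          (Finset.range_subset_range.2 (Finset.mem_range.1 hk).le) (fun _ _ _ => sq_nonneg _)
      linarith
    have hak : |a k| ≤ 1 := by
      have h5 : a k ^ 2 ≤ ∑ i ∈ range K, a i ^ 2 :=
        Finset.single_le_sum (f := fun i => a i ^ 2) (fun _ _ => sq_nonneg _) hk
      rw [ha] at h5
      rw [← sq_abs] at h5
      nlinarith [abs_nonneg (a k)]
    have h6 := lower_label (abs_nonneg (a k)) hak k
    rw [sq_abs] at h6
    have h7 : ∑ l ∈ range (k + 3), rho k l * (|a k| * (Wt l * if 1 ≤ |a k| * Wt l then (1:ℝ) else 0))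
        = |a k| * ∑ l ∈ range (k + 3), rho k l * (Wt l * if 1 ≤ |a k| * Wt l then (1:ℝ) else 0) := by
      rw [Finset.mul_sum]
      refine Finset.sum_congr rfl (fun l _ => by ring)
    rw [h7]
    have h8 : 0 ≤ |a k| * ∑ l ∈ range (k + 3), rho k l *
        (Wt l * if 1 ≤ |a k| * Wt l then (1:ℝ) else 0) := by
      refine mul_nonneg (abs_nonneg _) (Finset.sum_nonneg (fun l _ => ?_))
      refine mul_nonneg (rho_nonneg _ _) (mul_nonneg (Wt_nonneg _) ?_)
      split_ifs <;> norm_num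
    calc (2/3) * (a k ^ 2 / 2 - (1/4) ^ (k+2) / 2) ≤ (2/3) * (|a k| * ∑ l ∈ range (k + 3), rho k l *
        (Wt l * if 1 ≤ |a k| * Wt l then (1:ℝ) else 0)) := by gcongr
      _ ≤ _ := by
        exact mul_le_mul_of_nonneg_right h4 h8
  refine le_trans ?_ (Finset.sum_le_sum h2)
  rw [← Finset.mul_sum, Finset.sum_sub_distrib, ← Finset.sum_div, ← Finset.sum_div, ha]
  have h9 : ∑ k ∈ range K, (1/4:ℝ) ^ (k+2) ≤ 1/12 := by
    have h10 : ∑ k ∈ range K, (1/4:ℝ) ^ (k+2) = (1/4) * ∑ k ∈ range K, (1/4:ℝ) ^ (k+1) := by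
      rw [Finset.mul_sum]
      exact Finset.sum_congr rfl (fun k _ => by ring)
    rw [h10, geom_quarter]
    have : (0:ℝ) ≤ (1/4) ^ K := by positivity
    linarith
  linarith

end Pool.Agent.Work.N6eec66
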