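import Mathlib

set_option autoImplicit false

namespace Pool.Agent.Work.N6eec66

open Finset

/-- the law of the `n`-th label -/
noncomputable def rho (n l : ℕ) : ℝ :=
  if l = 0 then 1 - ∑ i ∈ range (n + 2), (1/4:ℝ) ^ (i + 1) else (1/4) ^ l

theorem geom_quarter (N : ℕ) : ∑ i ∈ range N, (1/4:ℝ) ^ (i + 1) = (1/3) * (1 - (1/4) ^ N) := by
  induction' N with N ih
  · simp
  · rw [Finset.sum_range_succ, ih]; ring

theorem rho_nonneg (n l : ℕ) : 0 ≤ rho n l := by
  unfold rho
  split_ifs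
  · rw [geom_quarter]
    have : (0:ℝ) ≤ (1/4) ^ (n+2) := by positivity
    linarith
  · positivity

theorem rho_pos_eq {n l : ℕ} (h : l ≠ 0) : rho n l = (1/4) ^ l := by
  unfold rho; rw [if_neg h]

theorem rho_sum (n : ℕ) : ∑ l ∈ range (n + 3), rho n l = 1 := by
  rw [Finset.sum_range_succ']
  have : ∀ i ∈ range (n+2), rho n (i+1) = (1/4:ℝ)^(i+1) := fun i _ => rho_pos_eq (by omega)
  rw [Finset.sum_congr rfl this]
  unfold rho
  simp

/-- expectation over the first `n` labels -/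
noncomputable def Ex {V : Type*} [AddCommGroup V] [Module ℝ V] : ℕ → ((ℕ → ℕ) → V) → V
  | 0, φ => φ (fun _ => 0)
  | (n+1), φ => Ex n (fun s => ∑ l ∈ range (n+3), rho n l • φ (Function.update s n l))

section
variable {V : Type*} [AddCommGroup V] [Module ℝ V]

theorem Ex_zero' (n : ℕ) : Ex n (fun _ => (0:V)) = 0 := by
  induction' n with n ih
  · rfl
  · simp only [Ex, smul_zero, Finset.sum_const_zero]; exact ih

theorem Ex_add (n : ℕ) : ∀ (φ ψ : (ℕ → ℕ) → V), Ex n (fun s => φ s + ψ s) = Ex n φ + Ex n ψ := by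
  induction' n with n ih
  · intro φ ψ; rfl
  · intro φ ψ
    simp only [Ex]
    rw [← ih]
    congr 1
    funext s
    rw [← Finset.sum_add_distrib]
    exact Finset.sum_congr rfl (fun l _ => smul_add _ _ _)

theorem Ex_smul (n : ℕ) : ∀ (a : ℝ) (φ : (ℕ → ℕ) → V), Ex n (fun s => a • φ s) = a • Ex n φ := by
  induction' n with n ih
  · intro a φ; rfl
  · intro a φ
    simp only [Ex]
    rw [← ih]
    congr 1
    funext s
    rw [Finset.smul_sum]
    exact Finset.sum_congr rfl (fun l _ => smul_comm _ _ _)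

theorem Ex_sum {ι : Type*} (n : ℕ) (t : Finset ι) (φ : ι → (ℕ → ℕ) → V) :
    Ex n (fun s => ∑ i ∈ t, φ i s) = ∑ i ∈ t, Ex n (φ i) := by
  classical
  induction t using Finset.induction_on with
  | empty => simp [Ex_zero']
  | insert a t ha ih =>
    simp only [Finset.sum_insert ha]
    rw [Ex_add, ih]

theorem Ex_map {W : Type*} [AddCommGroup W] [Module ℝ W] (L : V →ₗ[ℝ] W) (n : ℕ) :
    ∀ (φ : (ℕ → ℕ) → V), L (Ex n φ) = Ex n (fun s => L (φ s)) := by
  induction' n with n ih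
  · intro φ; rfl
  · intro φ
    simp only [Ex]
    rw [ih]
    congr 1
    funext s
    rw [map_sum]
    exact Finset.sum_congr rfl (fun l _ => map_smul _ _ _)

theorem Ex_succ_indep (n : ℕ) (φ : (ℕ → ℕ) → V)
    (h : ∀ s l, φ (Function.update s n l) = φ s) : Ex (n+1) φ = Ex n φ := by
  simp only [Ex]
  congr 1
  funext s
  simp only [h]
  rw [← Finset.sum_smul, rho_sum, one_smul]

theorem Ex_indep (m : ℕ) (φ : (ℕ → ℕ) → V)
    (h : ∀ i, m ≤ i → ∀ s l, φ (Function.update s i l) = φ s) :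
    ∀ n, m ≤ n → Ex n φ = Ex m φ := by
  intro n hn
  induction' n, hn using Nat.le_induction with n hn ih
  · rfl
  · rw [Ex_succ_indep n φ (h n hn), ih]

theorem Ex_const (n : ℕ) (v : V) : Ex n (fun _ => v) = v := by
  rw [Ex_indep 0 (fun _ => v) (fun _ _ _ _ => rfl) n (Nat.zero_le _)]; rfl

end

theorem Ex_mono (n : ℕ) : ∀ (φ ψ : (ℕ → ℕ) → ℝ), (∀ s, φ s ≤ ψ s) → Ex n φ ≤ Ex n ψ := by
  induction' n with n ih
  · intro φ ψ h; exact h _
  · intro φ ψ h
    simp only [Ex]
    apply ih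
    intro s
    refine Finset.sum_le_sum (fun l _ => ?_)
    exact mul_le_mul_of_nonneg_left (h _) (rho_nonneg _ _)

theorem Ex_nonneg (n : ℕ) (φ : (ℕ → ℕ) → ℝ) (h : ∀ s, 0 ≤ φ s) : 0 ≤ Ex n φ := by
  rw [← Ex_zero' (V := ℝ) n]
  exact Ex_mono n _ _ h

theorem abs_Ex_le (n : ℕ) (φ : (ℕ → ℕ) → ℝ) : |Ex n φ| ≤ Ex n (fun s => |φ s|) := by
  rw [abs_le]
  constructor
  · rw [neg_le]
    have h1 : -Ex n φ = Ex n (fun s => (-1:ℝ) • φ s) := by
      rw [Ex_smul]; simp
    rw [h1]
    exact Ex_mono n _ _ (fun s => by simpa using neg_le_abs (φ s))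
  · exact Ex_mono n _ _ (fun s => le_abs_self _)

/-- product formula -/
theorem Ex_mul_last (n : ℕ) (F : (ℕ → ℕ) → ℝ) (g : ℕ → ℝ)
    (hF : ∀ s l, F (Function.update s n l) = F s) :
    Ex (n+1) (fun s => F s * g (s n)) = Ex n F * ∑ l ∈ range (n+3), rho n l * g l := by
  simp only [Ex]
  have : (fun s : ℕ → ℕ => ∑ l ∈ range (n + 3), rho n l •
      (F (Function.update s n l) * g (Function.update s n l n))) =
      fun s => (∑ l ∈ range (n+3), rho n l * g l) • F s := by
    funext s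
    rw [smul_eq_mul, Finset.sum_mul]
    refine Finset.sum_congr rfl (fun l _ => ?_)
    rw [hF, Function.update_self]
    simp only [smul_eq_mul]; ring
  rw [this, Ex_smul, smul_eq_mul, mul_comm]

theorem Ex_coord (n : ℕ) (g : ℕ → ℝ) :
    Ex (n+1) (fun s => g (s n)) = ∑ l ∈ range (n+3), rho n l * g l := by
  have := Ex_mul_last n (fun _ => 1) g (fun _ _ => rfl)
  simp only [one_mul] at this
  rw [this, Ex_const, one_mul]

theorem Ex_coord' (n N : ℕ) (h : n < N) (g : ℕ → ℝ) :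
    Ex N (fun s => g (s n)) = ∑ l ∈ range (n+3), rho n l * g l := by
  rw [Ex_indep (n+1) (fun s => g (s n)) _ N h, Ex_coord]
  intro i hi s l
  rw [Function.update_of_ne (by omega)]

theorem Ex_eventually {V : Type*} [AddCommGroup V] [Module ℝ V] (n : ℕ) :
    ∀ (F : ℕ → (ℕ → ℕ) → V) (G : (ℕ → ℕ) → V),
      (∀ s, ∀ᶠ N in Filter.atTop, F N s = G s) → ∀ᶠ N in Filter.atTop, Ex n (F N) = Ex n G := by
  induction' n with n ih
  · intro F G h; exact h _
  · intro F G h
    simp only [Ex]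
    apply ih
    intro s
    have : ∀ l ∈ range (n+3), ∀ᶠ N in Filter.atTop,
        F N (Function.update s n l) = G (Function.update s n l) := fun l _ => h _
    have h2 := (Filter.eventually_all_finset (range (n+3))).2 this
    filter_upwards [h2] with N hN
    exact Finset.sum_congr rfl (fun l hl => by rw [hN l hl])

/-- the weight of a label -/
noncomputable def Wt (l : ℕ) : ℝ := if l = 0 then 0 else 2 ^ l

theorem Wt_nonneg (l : ℕ) : 0 ≤ Wt l := by unfold Wt; split_ifs <;> positivity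

end Pool.Agent.Work.N6eec66
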