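import Pool.Agent.Work.MP_6eec66_an.Schreier
import Pool.Agent.Work.MP_6eec66_an.Expect

set_option autoImplicit false

namespace Pool.Agent.Work.N6eec66

open Finset

/-- potential used for telescoping -/
noncomputable def pot (u : ℝ) : ℝ := if u ≤ 1 then 8 * u else 18 - 2 / u

theorem pot_le {u : ℝ} (hu : 0 ≤ u) : pot u ≤ 18 := by
  unfold pot
  split_ifs with h
  · linarith
  · have : 0 ≤ 2 / u := by positivity
    linarith

theorem pot_nonneg {u : ℝ} (hu : 0 ≤ u) : 0 ≤ pot u := by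
  unfold pot
  split_ifs with h
  · positivity
  · push Not at h
    have : 2 / u ≤ 2 := by rw [div_le_iff₀ (by linarith)]; linarith
    linarith

theorem hfun_pot {u : ℝ} (hu : 0 < u) : hfun u ≤ u ^ 2 * (pot (2 * u) - pot u) := by
  unfold hfun pot
  by_cases h1 : u ≤ 1
  · rw [if_pos h1, if_pos h1]
    by_cases h2 : 2 * u ≤ 1
    · rw [if_pos h2]
      nlinarith [sq_nonneg u]
    · rw [if_neg h2]
      push Not at h2
      have h3 : 1 / u < 2 := by rw [div_lt_iff₀ hu]; linarith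
      have h4 : 2 / (2 * u) = 1 / u := by field_simp
      rw [h4]
      have h5 : 16 * u + 1 / u ≤ 18 - 0 := by
        have : 1 / u ≤ 1 + 2 * (1 - u) := by
          rw [div_le_iff₀ hu]; nlinarith
        linarith
      have h6 : 8 * u ≤ 18 - 1 / u - 8 * u := by linarith
      calc 8 * u ^ 3 = u ^ 2 * (8 * u) := by ring
        _ ≤ u ^ 2 * (18 - 1 / u - 8 * u) := by gcongr
  · rw [if_neg h1, if_neg h1, if_neg (by linarith)]
    push Not at h1
    have : u ^ 2 * (18 - 2 / (2 * u) - (18 - 2 / u)) = u := by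
      field_simp; ring
    rw [this]

theorem sum_hfun_le {a : ℝ} (ha : 0 < a) (J : ℕ) :
    ∑ l ∈ range J, (1/4:ℝ) ^ l * hfun (a * 2 ^ l) ≤ a ^ 2 * pot (a * 2 ^ J) := by
  induction' J with J ih
  · simp only [range_zero, sum_empty]
    have := pot_nonneg (show 0 ≤ a * 2 ^ 0 by positivity)
    positivity
  · rw [Finset.sum_range_succ]
    have hu : 0 < a * 2 ^ J := by positivity
    have h1 := hfun_pot hu
    have h2 : (1/4:ℝ) ^ J * (a * 2 ^ J) ^ 2 = a ^ 2 := by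
      have : (1/4:ℝ) ^ J * (2 ^ J) ^ 2 = 1 := by
        rw [← pow_mul, mul_comm J 2, pow_mul, ← mul_pow]; norm_num
      calc (1/4:ℝ) ^ J * (a * 2 ^ J) ^ 2 = a ^ 2 * ((1/4:ℝ) ^ J * (2 ^ J) ^ 2) := by ring
        _ = a ^ 2 := by rw [this, mul_one]
    have h3 : (1/4:ℝ) ^ J * hfun (a * 2 ^ J) ≤
        (1/4:ℝ) ^ J * ((a * 2 ^ J) ^ 2 * (pot (2 * (a * 2 ^ J)) - pot (a * 2 ^ J))) := by
      gcongr
    rw [← mul_assoc, h2] at h3
    have h4 : 2 * (a * 2 ^ J) = a * 2 ^ (J+1) := by ring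
    rw [h4] at h3
    linarith

theorem upper_label {a : ℝ} (ha : 0 ≤ a) (k : ℕ) :
    ∑ l ∈ range (k+3), rho k l * hfun (a * Wt l) ≤ 18 * a ^ 2 := by
  rcases ha.eq_or_lt with h0 | h0
  · rw [← h0]; simp [hfun]
  · calc ∑ l ∈ range (k+3), rho k l * hfun (a * Wt l) ≤
          ∑ l ∈ range (k+3), (1/4:ℝ) ^ l * hfun (a * 2 ^ l) := by
          refine Finset.sum_le_sum (fun l _ => ?_)
          by_cases hl : l = 0
          · subst hl
            have h1 : hfun (a * Wt 0) = 0 := by simp [Wt, hfun]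
            have h2 : 0 ≤ hfun (a * 2 ^ 0) := hfun_nonneg (by positivity)
            rw [h1]; simpa using h2
          · rw [rho_pos_eq hl]
            unfold Wt
            rw [if_neg hl]
      _ ≤ a ^ 2 * pot (a * 2 ^ (k+3)) := sum_hfun_le h0 _
      _ ≤ 18 * a ^ 2 := by
        have := pot_le (show 0 ≤ a * 2 ^ (k+3) by positivity)
        nlinarith [sq_nonneg a]

/-- second potential -/
noncomputable def pot2 (u : ℝ) : ℝ := if u < 1 then 0 else 4/3 - (4/3) / u ^ 2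

theorem pot2_nonneg {u : ℝ} (hu : 0 ≤ u) : 0 ≤ pot2 u := by
  unfold pot2
  split_ifs with h
  · exact le_refl _
  · push Not at h
    have : (4/3) / u ^ 2 ≤ 4/3 := by
      rw [div_le_iff₀ (by positivity)]; nlinarith
    linarith

theorem pot2_le {u : ℝ} : pot2 u ≤ 4/3 := by
  unfold pot2
  split_ifs with h
  · norm_num
  · have : 0 ≤ (4/3) / u ^ 2 := by positivity
    linarith

theorem ind_pot2 {u : ℝ} (hu : 0 < u) :
    (if 1 ≤ u then (1:ℝ) else 0) ≤ u ^ 2 * (pot2 (2 * u) - pot2 u) := by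
  by_cases h : 1 ≤ u
  · unfold pot2
    rw [if_pos h, if_neg (by linarith), if_neg (by linarith)]
    have : u ^ 2 * (4 / 3 - 4 / 3 / (2 * u) ^ 2 - (4 / 3 - 4 / 3 / u ^ 2)) = 1 := by
      field_simp; ring
    rw [this]
  · rw [if_neg h]
    have h1 : pot2 u = 0 := by unfold pot2; rw [if_pos (by linarith)]
    have h2 := pot2_nonneg (show 0 ≤ 2 * u by positivity)
    rw [h1, sub_zero]
    positivity

theorem sum_ind_le {a : ℝ} (ha : 0 < a) (J : ℕ) :
    ∑ l ∈ range J, (1/4:ℝ) ^ l * (if 1 ≤ a * 2 ^ l then (1:ℝ) else 0) ≤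
      a ^ 2 * pot2 (a * 2 ^ J) := by
  induction' J with J ih
  · simp only [range_zero, sum_empty]
    have := pot2_nonneg (show 0 ≤ a * 2 ^ 0 by positivity)
    positivity
  · rw [Finset.sum_range_succ]
    have hu : 0 < a * 2 ^ J := by positivity
    have h1 := ind_pot2 hu
    have h2 : (1/4:ℝ) ^ J * (a * 2 ^ J) ^ 2 = a ^ 2 := by
      have : (1/4:ℝ) ^ J * (2 ^ J) ^ 2 = 1 := by
        rw [← pow_mul, mul_comm J 2, pow_mul, ← mul_pow]; norm_num
      calc (1/4:ℝ) ^ J * (a * 2 ^ J) ^ 2 = a ^ 2 * ((1/4:ℝ) ^ J * (2 ^ J) ^ 2) := by ring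
        _ = a ^ 2 := by rw [this, mul_one]
    have h3 : (1/4:ℝ) ^ J * (if 1 ≤ a * 2 ^ J then (1:ℝ) else 0) ≤
        (1/4:ℝ) ^ J * ((a * 2 ^ J) ^ 2 * (pot2 (2 * (a * 2 ^ J)) - pot2 (a * 2 ^ J))) :=
      mul_le_mul_of_nonneg_left h1 (by positivity)
    rw [← mul_assoc, h2] at h3
    have h4 : 2 * (a * 2 ^ J) = a * 2 ^ (J+1) := by ring
    rw [h4] at h3
    linarith

theorem big_label {a : ℝ} (ha : 0 ≤ a) (k : ℕ) :
    ∑ l ∈ range (k+3), rho k l * (if 1 ≤ a * Wt l then (1:ℝ) else 0) ≤ (4/3) * a ^ 2 := by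
  rcases ha.eq_or_lt with h0 | h0
  · have h1 : ¬ ((1:ℝ) ≤ 0) := by norm_num
    rw [← h0]; simp [h1]
  · calc ∑ l ∈ range (k+3), rho k l * (if 1 ≤ a * Wt l then (1:ℝ) else 0) ≤
          ∑ l ∈ range (k+3), (1/4:ℝ) ^ l * (if 1 ≤ a * 2 ^ l then (1:ℝ) else 0) := by
          refine Finset.sum_le_sum (fun l _ => ?_)
          by_cases hl : l = 0
          · subst hl
            have h1 : (if 1 ≤ a * Wt 0 then (1:ℝ) else 0) = 0 := by
              simp only [Wt, if_true, mul_zero]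
              rw [if_neg (by norm_num)]
            rw [h1]
            split_ifs <;> simp
          · rw [rho_pos_eq hl]
            unfold Wt
            rw [if_neg hl]
      _ ≤ a ^ 2 * pot2 (a * 2 ^ (k+3)) := sum_ind_le h0 _
      _ ≤ (4/3) * a ^ 2 := by
        have := pot2_le (u := a * 2 ^ (k+3))
        nlinarith [sq_nonneg a]

theorem lower_label {a : ℝ} (ha : 0 ≤ a) (ha1 : a ≤ 1) (k : ℕ) :
    a ^ 2 / 2 - (1/4) ^ (k+2) / 2 ≤
      a * ∑ l ∈ range (k+3), rho k l * (Wt l * (if 1 ≤ a * Wt l then (1:ℝ) else 0)) := by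
  have hnn : 0 ≤ a * ∑ l ∈ range (k+3), rho k l *
      (Wt l * (if 1 ≤ a * Wt l then (1:ℝ) else 0)) := by
    refine mul_nonneg ha (Finset.sum_nonneg (fun l _ => ?_))
    refine mul_nonneg (rho_nonneg _ _) (mul_nonneg (Wt_nonneg _) ?_)
    split_ifs <;> norm_num
  by_cases hsmall : a ≤ (1/2) ^ (k+2)
  · have h1 : a ^ 2 ≤ ((1/2) ^ (k+2)) ^ 2 := by gcongr
    have h2 : (((1:ℝ)/2) ^ (k+2)) ^ 2 = (1/4) ^ (k+2) := by
      rw [← pow_mul, mul_comm, pow_mul]; norm_num
    rw [h2] at h1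
    linarith
  · push Not at hsmall
    have h0 : 0 < a := lt_trans (by positivity) hsmall
    obtain ⟨n, hn1, hn2⟩ := exists_nat_pow_near_of_lt_one h0 ha1 (by norm_num : (0:ℝ) < 1/2)
        (by norm_num : (1/2:ℝ) < 1)
    have hn3 : n < k + 2 := by
      by_contra hcon
      push Not at hcon
      have : (1/2:ℝ)^n ≤ (1/2)^(k+2) := pow_le_pow_of_le_one (by norm_num) (by norm_num) hcon
      linarith
    have hmem : n + 1 ∈ range (k+3) := by rw [mem_range]; omega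
    have hpow : (1/2:ℝ)^(n+1) * 2 ^ (n+1) = 1 := by rw [← mul_pow]; norm_num
    have hbig : 1 ≤ a * Wt (n+1) := by
      unfold Wt
      rw [if_neg (by omega)]
      have : (1/2:ℝ)^(n+1) * 2 ^ (n+1) ≤ a * 2 ^ (n+1) := by gcongr
      linarith
    have hsingle : rho k (n+1) * (Wt (n+1) * (if 1 ≤ a * Wt (n+1) then (1:ℝ) else 0)) ≤
        ∑ l ∈ range (k+3), rho k l * (Wt l * (if 1 ≤ a * Wt l then (1:ℝ) else 0)) := by
      refine Finset.single_le_sum (f := fun l => rho k l *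
        (Wt l * (if 1 ≤ a * Wt l then (1:ℝ) else 0))) (fun l _ => ?_) hmem
      refine mul_nonneg (rho_nonneg _ _) (mul_nonneg (Wt_nonneg _) ?_)
      split_ifs <;> norm_num
    rw [if_pos hbig, mul_one, rho_pos_eq (by omega)] at hsingle
    have hval : (1/4:ℝ)^(n+1) * Wt (n+1) = (1/2)^(n+1) := by
      unfold Wt
      rw [if_neg (by omega), ← mul_pow]; norm_num
    rw [hval] at hsingle
    have h3 : a / 2 ≤ (1/2:ℝ)^(n+1) := by
      rw [pow_succ]; linarith
    have h4 : 0 ≤ ((1:ℝ)/4) ^ (k+2) / 2 := by positivity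
    calc a ^ 2 / 2 - (1/4) ^ (k+2) / 2 ≤ a * (a / 2) := by
          have : a * (a/2) = a^2/2 := by ring
          linarith
      _ ≤ a * ∑ l ∈ range (k+3), rho k l * (Wt l * (if 1 ≤ a * Wt l then (1:ℝ) else 0)) := by
          gcongr
          exact h3.trans hsingle

end Pool.Agent.Work.N6eec66
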