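import Mathlib

set_option autoImplicit false

namespace Pool.Agent.Work.N6eec66

open Finset

/-- index set of signed members of the family -/
def Idx (𝓕 : Set (Finset ℕ)) : Type := {p : Finset ℕ × (ℕ → Bool) // p.1 ∈ 𝓕}

/-- the ambient space -/
abbrev AmbV (𝓕 : Set (Finset ℕ)) : Type := lp (fun _ : Idx 𝓕 => ℝ) ⊤

/-- sign of a Boolean -/
def sg (b : Bool) : ℝ := if b then 1 else -1

theorem abs_sg (b : Bool) : |sg b| = 1 := by cases b <;> simp [sg]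

/-- basis vectors -/
noncomputable def bvec (𝓕 : Set (Finset ℕ)) (n : ℕ) : AmbV 𝓕 :=
  ⟨fun p => if n ∈ p.1.1 then sg (p.1.2 n) else 0, by
    refine memℓp_infty ⟨1, ?_⟩
    rintro _ ⟨p, rfl⟩
    dsimp only
    split_ifs
    · rw [Real.norm_eq_abs, abs_sg]
    · simp⟩

theorem bvec_apply (𝓕 : Set (Finset ℕ)) (n : ℕ) (p : Idx 𝓕) :
    (bvec 𝓕 n : ∀ _ : Idx 𝓕, ℝ) p = if n ∈ p.1.1 then sg (p.1.2 n) else 0 := rfl

/-- the combinatorial space -/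
noncomputable abbrev XF (𝓕 : Set (Finset ℕ)) : Submodule ℝ (AmbV 𝓕) :=
  (Submodule.span ℝ (Set.range (bvec 𝓕))).topologicalClosure

noncomputable def evec (𝓕 : Set (Finset ℕ)) (n : ℕ) : XF 𝓕 :=
  ⟨bvec 𝓕 n, subset_closure (Submodule.subset_span ⟨n, rfl⟩)⟩

theorem dense_span (𝓕 : Set (Finset ℕ)) :
    Dense (Submodule.span ℝ (Set.range (evec 𝓕)) : Set (XF 𝓕)) := by
  intro x
  rw [closure_subtype]
  have h1 : Subtype.val '' (Submodule.span ℝ (Set.range (evec 𝓕)) : Set (XF 𝓕)) =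
      (Submodule.span ℝ (Set.range (bvec 𝓕)) : Set (AmbV 𝓕)) := by
    have h2 := Submodule.map_span (XF 𝓕).subtype (Set.range (evec 𝓕))
    have h3 : (XF 𝓕).subtype '' (Set.range (evec 𝓕)) = Set.range (bvec 𝓕) := by
      rw [← Set.range_comp]; rfl
    rw [h3] at h2
    have h4 := congrArg (fun S : Submodule ℝ (AmbV 𝓕) => (S : Set (AmbV 𝓕))) h2
    simpa using h4
  rw [h1]
  exact x.2

theorem sum_apply (𝓕 : Set (Finset ℕ)) (n : ℕ) (a : ℕ → ℝ) (p : Idx 𝓕) :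
    ((∑ i ∈ range n, a i • bvec 𝓕 i : AmbV 𝓕) : ∀ _ : Idx 𝓕, ℝ) p =
      ∑ i ∈ p.1.1 ∩ range n, a i * sg (p.1.2 i) := by
  have h0 := map_sum (lp.evalCLM ℝ (fun _ : Idx 𝓕 => ℝ) ⊤ p) (fun i => a i • bvec 𝓕 i) (range n)
  change ((∑ i ∈ range n, a i • bvec 𝓕 i : AmbV 𝓕) : ∀ _ : Idx 𝓕, ℝ) p = _ at h0
  rw [h0]
  have : ∀ i ∈ range n, (lp.evalCLM ℝ (fun _ : Idx 𝓕 => ℝ) ⊤ p) (a i • bvec 𝓕 i) =
      if i ∈ p.1.1 then a i * sg (p.1.2 i) else 0 := by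
    intro i _
    rw [map_smul, smul_eq_mul]
    change a i * (bvec 𝓕 i : ∀ _ : Idx 𝓕, ℝ) p = _
    rw [bvec_apply]
    split_ifs <;> simp
  rw [Finset.sum_congr rfl this, ← Finset.sum_filter]
  congr 1
  ext i
  simp [and_comm]

theorem norm_formula (𝓕 : Set (Finset ℕ)) (hne : (∅ : Finset ℕ) ∈ 𝓕) (n : ℕ) (a : ℕ → ℝ) :
    ‖∑ i ∈ range n, a i • evec 𝓕 i‖ =
      sSup ((fun F : Finset ℕ => ∑ i ∈ F ∩ range n, |a i|) '' 𝓕) := by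
  have hval : ((∑ i ∈ range n, a i • evec 𝓕 i : XF 𝓕) : AmbV 𝓕) =
      ∑ i ∈ range n, a i • bvec 𝓕 i := by
    rw [Submodule.coe_sum]; rfl
  have hbdd : BddAbove ((fun F : Finset ℕ => ∑ i ∈ F ∩ range n, |a i|) '' 𝓕) := by
    refine ⟨∑ i ∈ range n, |a i|, ?_⟩
    rintro _ ⟨F, _, rfl⟩
    exact Finset.sum_le_sum_of_subset_of_nonneg Finset.inter_subset_right
      (fun _ _ _ => abs_nonneg _)
  change ‖((∑ i ∈ range n, a i • evec 𝓕 i : XF 𝓕) : AmbV 𝓕)‖ = _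
  rw [hval]
  apply le_antisymm
  · refine lp.norm_le_of_forall_le ?_ ?_
    · refine le_trans ?_ (le_csSup hbdd ⟨∅, hne, rfl⟩)
      simp
    · intro p
      rw [sum_apply]
      refine le_trans ?_ (le_csSup hbdd ⟨p.1.1, p.2, rfl⟩)
      rw [Real.norm_eq_abs]
      refine (Finset.abs_sum_le_sum_abs _ _).trans (le_of_eq ?_)
      refine Finset.sum_congr rfl (fun i _ => ?_)
      rw [abs_mul, abs_sg, mul_one]
  · refine csSup_le ⟨_, ⟨∅, hne, rfl⟩⟩ ?_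
    rintro _ ⟨F, hF, rfl⟩
    set p : Idx 𝓕 := ⟨(F, fun i => decide (0 ≤ a i)), hF⟩ with hp
    have h1 := lp.norm_apply_le_norm (p := ⊤) (by simp) (∑ i ∈ range n, a i • bvec 𝓕 i) p
    rw [sum_apply] at h1
    refine le_trans (le_of_eq ?_) h1
    rw [Real.norm_eq_abs]
    have h2 : ∑ i ∈ p.1.1 ∩ range n, a i * sg (p.1.2 i) = ∑ i ∈ F ∩ range n, |a i| := by
      refine Finset.sum_congr rfl (fun i _ => ?_)
      change a i * sg (decide (0 ≤ a i)) = |a i|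
      by_cases h : 0 ≤ a i
      · simp [sg, h, abs_of_nonneg h]
      · push Not at h
        simp [sg, not_le.2 h, abs_of_neg h]
    rw [h2, abs_of_nonneg (Finset.sum_nonneg (fun _ _ => abs_nonneg _))]

/-- coordinate functionals -/
noncomputable def coord (𝓕 : Set (Finset ℕ)) (hs : ∀ i : ℕ, ({i} : Finset ℕ) ∈ 𝓕) (i : ℕ) :
    XF 𝓕 →L[ℝ] ℝ :=
  (lp.evalCLM ℝ (fun _ : Idx 𝓕 => ℝ) ⊤ (⟨({i}, fun _ => true), hs i⟩ : Idx 𝓕)).comp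
    (XF 𝓕).subtypeL

theorem coord_evec (𝓕 : Set (Finset ℕ)) (hs : ∀ i : ℕ, ({i} : Finset ℕ) ∈ 𝓕) (i j : ℕ) :
    coord 𝓕 hs i (evec 𝓕 j) = if i = j then 1 else 0 := by
  change (bvec 𝓕 j : ∀ _ : Idx 𝓕, ℝ) (⟨({i}, fun _ => true), hs i⟩ : Idx 𝓕) = _
  rw [bvec_apply]
  simp [sg, eq_comm]

theorem coord_bound (𝓕 : Set (Finset ℕ)) (hs : ∀ i : ℕ, ({i} : Finset ℕ) ∈ 𝓕) (x : XF 𝓕)
    (F : Finset ℕ) (hF : F ∈ 𝓕) : ∑ i ∈ F, |coord 𝓕 hs i x| ≤ ‖x‖ := by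
  set σ : ℕ → Bool := fun i => decide (0 ≤ coord 𝓕 hs i x) with hσ
  set p : Idx 𝓕 := ⟨(F, σ), hF⟩ with hp
  have key : (lp.evalCLM ℝ (fun _ : Idx 𝓕 => ℝ) ⊤ p).comp (XF 𝓕).subtypeL =
      ∑ i ∈ F, sg (σ i) • coord 𝓕 hs i := by
    refine ContinuousLinearMap.ext_on (dense_span 𝓕) ?_
    rintro _ ⟨j, rfl⟩
    have h1 : ((lp.evalCLM ℝ (fun _ : Idx 𝓕 => ℝ) ⊤ p).comp (XF 𝓕).subtypeL) (evec 𝓕 j) =
        if j ∈ F then sg (σ j) else 0 := rfl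
    rw [h1]
    simp only [FunLike.coe_sum, FunLike.coe_smul, Finset.sum_apply,
      Pi.smul_apply, coord_evec, smul_eq_mul, mul_ite, mul_one, mul_zero,
      Finset.sum_ite_eq']
  have h2 : ∑ i ∈ F, |coord 𝓕 hs i x| = ((lp.evalCLM ℝ (fun _ : Idx 𝓕 => ℝ) ⊤ p).comp
      (XF 𝓕).subtypeL) x := by
    rw [key]
    simp only [FunLike.coe_sum, FunLike.coe_smul, Finset.sum_apply,
      Pi.smul_apply, smul_eq_mul]
    refine Finset.sum_congr rfl (fun i _ => ?_)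
    by_cases h : 0 ≤ coord 𝓕 hs i x
    · simp [hσ, sg, h, abs_of_nonneg h]
    · push Not at h
      simp [hσ, sg, not_le.2 h, abs_of_neg h]
  rw [h2]
  have h3 := lp.norm_apply_le_norm (p := ⊤) (by simp) (x : AmbV 𝓕) p
  exact (le_abs_self _).trans h3

end Pool.Agent.Work.N6eec66
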