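import Pool.Agent.Work.MP_6eec66_an.Estimates
import Pool.Agent.Work.MP_6eec66_an.Space

set_option autoImplicit false

namespace Pool.Agent.Work.N6eec66

open Finset

/-- the node visited at time `k` along the path `s` -/
def pre (s : ℕ → ℕ) (k : ℕ) : List ℕ := (List.range (k+1)).map s

theorem pre_length (s : ℕ → ℕ) (k : ℕ) : (pre s k).length = k + 1 := by simp [pre]

theorem pre_prefix (s : ℕ → ℕ) {k l : ℕ} (h : k ≤ l) : pre s k <+: pre s l := by
  unfold pre
  apply List.IsPrefix.map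
  rw [List.prefix_iff_eq_take]
  simp [List.take_range, h]

theorem pre_inj (s : ℕ → ℕ) : Function.Injective (pre s) := by
  intro k l h
  have := congrArg List.length h
  rw [pre_length, pre_length] at this
  omega

theorem pre_getD (s : ℕ → ℕ) {i k : ℕ} (h : i ≤ k) : (pre s k).getD i 0 = s i := by
  unfold pre
  rw [List.getD_eq_getElem?_getD, List.getElem?_map, List.getElem?_range (by omega)]
  rfl

theorem pre_update (s : ℕ → ℕ) {i k : ℕ} (h : k < i) (l : ℕ) :
    pre (Function.update s i l) k = pre s k := by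
  unfold pre
  apply List.map_congr_left
  intro j hj
  rw [List.mem_range] at hj
  rw [Function.update_of_ne (by omega)]

/-- encoding of nodes -/
def enc : List ℕ ≃ ℕ := Denumerable.eqv (List ℕ)

/-- the compact family -/
def Fam : Set (Finset ℕ) :=
  {F | (∀ i ∈ F, ∀ j ∈ F, enc.symm i <+: enc.symm j ∨ enc.symm j <+: enc.symm i) ∧
    ∀ i ∈ F, F.card ≤ (enc.symm i).length + 1}

theorem Fam_hered : ∀ A ∈ Fam, ∀ B : Finset ℕ, B ⊆ A → B ∈ Fam := by
  rintro A ⟨h1, h2⟩ B hB
  refine ⟨fun i hi j hj => h1 i (hB hi) j (hB hj), fun i hi => ?_⟩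
  exact (Finset.card_le_card hB).trans (h2 i (hB hi))

theorem Fam_single (i : ℕ) : ({i} : Finset ℕ) ∈ Fam := by
  refine ⟨?_, ?_⟩
  · intro a ha b hb
    rw [Finset.mem_singleton] at ha hb
    subst ha; subst hb
    exact Or.inl (List.prefix_refl _)
  · intro a _
    rw [Finset.card_singleton]
    omega

theorem Fam_empty : (∅ : Finset ℕ) ∈ Fam := by
  refine ⟨?_, ?_⟩ <;> simp

theorem Fam_compact (M : Set ℕ) (hM : M.Infinite) : ∃ A : Finset ℕ, (↑A : Set ℕ) ⊆ M ∧ A ∉ Fam := by
  obtain ⟨i, hi⟩ := hM.nonempty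
  obtain ⟨t, ht, hc⟩ := (hM.sdiff (Set.finite_singleton i)).exists_subset_card_eq
    ((enc.symm i).length + 1)
  refine ⟨insert i t, ?_, ?_⟩
  · intro j hj
    rw [Finset.coe_insert] at hj
    rcases hj with rfl | hj
    · exact hi
    · exact (ht hj).1
  · rintro ⟨_, h2⟩
    have h3 := h2 i (Finset.mem_insert_self _ _)
    have h4 : i ∉ t := by
      intro h
      exact (ht h).2 rfl
    rw [Finset.card_insert_of_notMem h4, hc] at h3
    omega

/-- the coordinate functional attached to a node -/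
noncomputable abbrev cf (g : List ℕ) : XF Fam →L[ℝ] ℝ := coord Fam Fam_single (enc g)

/-- the block vectors in the dual -/
noncomputable def yv (k : ℕ) : XF Fam →L[ℝ] ℝ :=
  Ex (k+1) (fun s => Wt (s k) • cf (pre s k))

theorem chain_mem (s : ℕ → ℕ) (C : Finset ℕ) (hC : ∀ k ∈ C, C.card ≤ k + 1) :
    C.image (fun k => enc (pre s k)) ∈ Fam := by
  refine ⟨?_, ?_⟩
  · intro i hi j hj
    rw [Finset.mem_image] at hi hj
    obtain ⟨k, _, rfl⟩ := hi
    obtain ⟨l, _, rfl⟩ := hj
    rw [Equiv.symm_apply_apply, Equiv.symm_apply_apply]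
    rcases le_total k l with h | h
    · exact Or.inl (pre_prefix s h)
    · exact Or.inr (pre_prefix s h)
  · intro i hi
    rw [Finset.mem_image] at hi
    obtain ⟨k, hk, rfl⟩ := hi
    rw [Equiv.symm_apply_apply, pre_length]
    have h1 := hC k hk
    have h2 : (C.image (fun k => enc (pre s k))).card ≤ C.card := Finset.card_image_le
    omega

theorem chain_sum (s : ℕ → ℕ) (x : XF Fam) (hx : ‖x‖ ≤ 1) (C : Finset ℕ)
    (hC : ∀ k ∈ C, C.card ≤ k + 1) : ∑ k ∈ C, |cf (pre s k) x| ≤ 1 := by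
  have h1 := coord_bound Fam Fam_single x _ (chain_mem s C hC)
  rw [Finset.sum_image] at h1
  · exact h1.trans hx
  · intro k _ l _ h
    exact pre_inj s (enc.injective h)

/-- evaluation map as a linear map -/
noncomputable def evalL (x : XF Fam) : (XF Fam →L[ℝ] ℝ) →ₗ[ℝ] ℝ where
  toFun φ := φ x
  map_add' _ _ := rfl
  map_smul' _ _ := rfl

theorem yv_apply (k : ℕ) (x : XF Fam) :
    yv k x = Ex (k+1) (fun s => Wt (s k) * cf (pre s k) x) := by
  exact Ex_map (evalL x) (k+1) _

theorem yv_apply' (k K : ℕ) (hk : k < K) (x : XF Fam) :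
    yv k x = Ex K (fun s => Wt (s k) * cf (pre s k) x) := by
  rw [yv_apply]
  symm
  refine Ex_indep (k+1) _ ?_ K hk
  intro i hi s l
  rw [Function.update_of_ne (by omega), pre_update s (by omega)]

theorem upper_bound (a : ℕ → ℝ) (K : ℕ) (ha : ∑ k ∈ range K, a k ^ 2 ≤ 1) :
    ‖∑ k ∈ range K, a k • yv k‖ ≤ 24 := by
  refine ContinuousLinearMap.opNorm_le_of_unit_norm (by norm_num) (fun x hx => ?_)
  have h0 : (∑ k ∈ range K, a k • yv k) x =
      Ex K (fun s => ∑ k ∈ range K, a k * (Wt (s k) * cf (pre s k) x)) := by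
    rw [Ex_sum]
    simp only [FunLike.coe_sum, FunLike.coe_smul, Finset.sum_apply, Pi.smul_apply, smul_eq_mul]
    refine Finset.sum_congr rfl (fun k hk => ?_)
    rw [yv_apply' k K (Finset.mem_range.1 hk)]
    rw [← smul_eq_mul, ← Ex_smul]
    rfl
  rw [h0, Real.norm_eq_abs]
  refine (abs_Ex_le _ _).trans ?_
  have h1 : ∀ s : ℕ → ℕ, |∑ k ∈ range K, a k * (Wt (s k) * cf (pre s k) x)| ≤
      6 + ∑ k ∈ range K, hfun (|a k| * Wt (s k)) := by
    intro s
    refine (Finset.abs_sum_le_sum_abs _ _).trans ?_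
    have h2 := schreier_dual_bound (fun k => |cf (pre s k) x|) (fun k => |a k| * Wt (s k))
      (fun k => abs_nonneg _) (fun k => mul_nonneg (abs_nonneg _) (Wt_nonneg _))
      (fun C hC => chain_sum s x hx.le C hC) (range K)
    refine le_trans (le_of_eq ?_) h2
    refine Finset.sum_congr rfl (fun k _ => ?_)
    rw [abs_mul, abs_mul, abs_of_nonneg (Wt_nonneg _)]
    ring
  refine (Ex_mono _ _ _ h1).trans ?_
  rw [Ex_add, Ex_const, Ex_sum]
  have h3 : ∀ k ∈ range K, Ex K (fun s => hfun (|a k| * Wt (s k))) ≤ 18 * a k ^ 2 := by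
    intro k hk
    rw [Ex_coord' k K (Finset.mem_range.1 hk) (fun l => hfun (|a k| * Wt l))]
    have := upper_label (abs_nonneg (a k)) k
    rwa [sq_abs] at this
  have h4 := Finset.sum_le_sum h3
  rw [← Finset.mul_sum] at h4
  linarith

end Pool.Agent.Work.N6eec66
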