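import Mathlib

set_option autoImplicit false

namespace Pool.Agent.Work.N6eec66

open Finset

/-- pieces lemma -/
theorem sum_le_of_pieces (x : ℕ → ℝ)
    (hS : ∀ C : Finset ℕ, (∀ k ∈ C, C.card ≤ k + 1) → ∑ k ∈ C, x k ≤ 1)
    (M : ℕ) (hM : 0 < M) :
    ∀ D : Finset ℕ, (∀ k ∈ D, M ≤ k + 1) → ∑ k ∈ D, x k ≤ (D.card : ℝ) / M + 1 := by
  intro D
  induction' h : D.card using Nat.strong_induction_on with n ih generalizing D
  intro hD
  have hMr : (0:ℝ) < M := by exact_mod_cast hM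
  by_cases hn : n ≤ M
  · have h1 := hS D (fun k hk => by have := hD k hk; omega)
    have : (0:ℝ) ≤ (n:ℝ)/M := by positivity
    linarith
  · push Not at hn
    obtain ⟨D₁, hD₁, hc⟩ := Finset.exists_subset_card_eq (s := D) (n := M) (by omega)
    have h1 := hS D₁ (fun k hk => by have := hD k (hD₁ hk); omega)
    have hcard : (D \ D₁).card = n - M := by
      rw [Finset.card_sdiff_of_subset hD₁]; omega
    have h2 := ih (n - M) (by omega) (D \ D₁) hcard
      (fun k hk => hD k (Finset.mem_sdiff.1 hk).1)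
    rw [← Finset.sum_sdiff hD₁]
    have h3 : ((n - M : ℕ) : ℝ) / M + 1 = (n : ℝ) / M := by
      rw [Nat.cast_sub hn.le, sub_div, div_self hMr.ne']; ring
    linarith

theorem sum_low_le (x : ℕ → ℝ)
    (hS : ∀ C : Finset ℕ, (∀ k ∈ C, C.card ≤ k + 1) → ∑ k ∈ C, x k ≤ 1) (D : Finset ℕ) :
    ∀ j : ℕ, ∑ k ∈ D with k + 1 < 2 ^ j, x k ≤ j := by
  intro j
  induction' j with j ih
  · simp
  · have hsplit : (D.filter (fun k => k + 1 < 2 ^ (j+1))) =
        (D.filter (fun k => k + 1 < 2 ^ j)) ∪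
          (D.filter (fun k => 2 ^ j ≤ k + 1 ∧ k + 1 < 2 ^ (j+1))) := by
      ext k
      simp only [mem_filter, mem_union]
      have : 2 ^ j < 2 ^ (j+1) := Nat.pow_lt_pow_right (by norm_num) (by omega)
      constructor
      · rintro ⟨h1, h2⟩
        by_cases h : k + 1 < 2 ^ j
        · exact Or.inl ⟨h1, h⟩
        · exact Or.inr ⟨h1, by omega, h2⟩
      · rintro (⟨h1, h2⟩ | ⟨h1, h2, h3⟩)
        · exact ⟨h1, by omega⟩
        · exact ⟨h1, h3⟩
    have hdisj : Disjoint (D.filter (fun k => k + 1 < 2 ^ j))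
          (D.filter (fun k => 2 ^ j ≤ k + 1 ∧ k + 1 < 2 ^ (j+1))) := by
      rw [Finset.disjoint_left]
      intro k hk hk'
      simp only [mem_filter] at hk hk'
      omega
    rw [hsplit, Finset.sum_union hdisj]
    have hcard : (D.filter (fun k => 2 ^ j ≤ k + 1 ∧ k + 1 < 2 ^ (j+1))).card ≤ 2 ^ j := by
      have hsub : (D.filter (fun k => 2 ^ j ≤ k + 1 ∧ k + 1 < 2 ^ (j+1))) ⊆
          Finset.Ico (2 ^ j - 1) (2 ^ (j+1) - 1) := by
        intro k hk
        simp only [mem_filter] at hk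
        simp only [mem_Ico]
        omega
      refine (Finset.card_le_card hsub).trans ?_
      rw [Nat.card_Ico, pow_succ]
      have : 1 ≤ 2 ^ j := Nat.one_le_two_pow
      omega
    have h1 := hS (D.filter (fun k => 2 ^ j ≤ k + 1 ∧ k + 1 < 2 ^ (j+1))) (by
      intro k hk
      simp only [mem_filter] at hk
      omega)
    push_cast
    linarith

theorem sum_le_card (x : ℕ → ℝ)
    (hS : ∀ C : Finset ℕ, (∀ k ∈ C, C.card ≤ k + 1) → ∑ k ∈ C, x k ≤ 1) (D : Finset ℕ)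
    (n : ℕ) : ∑ k ∈ D, x k ≤ 2 * n + 1 + (D.card : ℝ) / 4 ^ n := by
  have h1 := sum_low_le x hS D (2 * n)
  have h2 := sum_le_of_pieces x hS (2 ^ (2 * n)) (by positivity)
    (D.filter (fun k => ¬ (k + 1 < 2 ^ (2 * n)))) (by
      intro k hk
      simp only [mem_filter] at hk
      omega)
  have h3 : ((D.filter (fun k => ¬ (k + 1 < 2 ^ (2 * n)))).card : ℝ) / ((2 ^ (2 * n) : ℕ) : ℝ) ≤
      (D.card : ℝ) / 4 ^ n := by
    have h4 : ((2 ^ (2 * n) : ℕ) : ℝ) = 4 ^ n := by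
      push_cast
      rw [pow_mul]; norm_num
    rw [h4]
    gcongr
    exact Finset.filter_subset _ _
  rw [← Finset.sum_filter_add_sum_filter_not D (fun k => k + 1 < 2 ^ (2 * n))]
  push_cast at h1
  linarith

/-- the Orlicz-like function -/
noncomputable def hfun (c : ℝ) : ℝ := if c ≤ 1 then 8 * c ^ 3 else c

theorem hfun_nonneg {c : ℝ} (hc : 0 ≤ c) : 0 ≤ hfun c := by
  unfold hfun; split_ifs <;> positivity

theorem geom_aux (N : ℕ) :
    ∑ n ∈ range N, (1/2:ℝ) ^ n * (2 * n + 1) = 6 - (4 * N + 6) * (1/2) ^ N := by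
  induction' N with N ih
  · simp
  · rw [Finset.sum_range_succ, ih]
    push_cast
    ring

theorem schreier_dual_bound (x c : ℕ → ℝ) (hx : ∀ k, 0 ≤ x k) (hc : ∀ k, 0 ≤ c k)
    (hS : ∀ C : Finset ℕ, (∀ k ∈ C, C.card ≤ k + 1) → ∑ k ∈ C, x k ≤ 1) (A : Finset ℕ) :
    ∑ k ∈ A, c k * x k ≤ 6 + ∑ k ∈ A, hfun (c k) := by
  classical
  have hx1 : ∀ k, x k ≤ 1 := by
    intro k
    have := hS {k} (by intro j hj; simp at hj; subst hj; simp)
    simpa using this
  have hlev : ∀ k, ∃ n : ℕ, 0 < c k → c k ≤ 1 → (1/2:ℝ)^(n+1) < c k ∧ c k ≤ (1/2:ℝ)^n := by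
    intro k
    by_cases h : 0 < c k ∧ c k ≤ 1
    · obtain ⟨n, hn⟩ := exists_nat_pow_near_of_lt_one h.1 h.2 (by norm_num : (0:ℝ) < 1/2)
        (by norm_num : (1/2:ℝ) < 1)
      exact ⟨n, fun _ _ => hn⟩
    · exact ⟨0, fun h1 h2 => absurd ⟨h1, h2⟩ h⟩
  choose lev hlev using hlev
  -- split
  set D := A.filter (fun k => 0 < c k ∧ c k ≤ 1) with hD
  have hsplit : ∑ k ∈ A, c k * x k ≤ ∑ k ∈ D, (1/2:ℝ)^(lev k) * x k +
      ∑ k ∈ A with ¬ (0 < c k ∧ c k ≤ 1), hfun (c k) := by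
    rw [← Finset.sum_filter_add_sum_filter_not A (fun k => 0 < c k ∧ c k ≤ 1)]
    refine add_le_add ?_ ?_
    · refine Finset.sum_le_sum (fun k hk => ?_)
      simp only [mem_filter] at hk
      exact mul_le_mul_of_nonneg_right (hlev k hk.2.1 hk.2.2).2 (hx k)
    · refine Finset.sum_le_sum (fun k hk => ?_)
      simp only [mem_filter, not_and, not_le] at hk
      rcases (hc k).eq_or_lt with h0 | h0
      · rw [← h0]; simp [hfun]
      · have h1 := hk.2 h0
        unfold hfun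
        rw [if_neg (not_le.2 h1)]
        exact mul_le_of_le_one_right (hc k) (hx1 k)
  obtain ⟨N, hN⟩ : ∃ N, ∀ k ∈ D, lev k < N := by
    refine ⟨(D.sup lev) + 1, fun k hk => ?_⟩
    exact Nat.lt_succ_of_le (Finset.le_sup hk)
  have hfib : ∑ k ∈ D, (1/2:ℝ)^(lev k) * x k =
      ∑ n ∈ range N, ∑ k ∈ D with lev k = n, (1/2:ℝ)^(lev k) * x k := by
    rw [Finset.sum_fiberwise_of_maps_to]
    intro k hk
    exact Finset.mem_range.2 (hN k hk)
  have hlevel : ∀ n ∈ range N, ∑ k ∈ D with lev k = n, (1/2:ℝ)^(lev k) * x k ≤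
      (1/2:ℝ)^n * (2 * n + 1) + ∑ k ∈ D with lev k = n, 8 * c k ^ 3 := by
    intro n _
    have h1 : ∑ k ∈ D with lev k = n, (1/2:ℝ)^(lev k) * x k =
        (1/2:ℝ)^n * ∑ k ∈ D with lev k = n, x k := by
      rw [Finset.mul_sum]
      refine Finset.sum_congr rfl (fun k hk => ?_)
      simp only [mem_filter] at hk
      rw [hk.2]
    rw [h1]
    have h2 := sum_le_card x hS (D.filter (fun k => lev k = n)) n
    have h3 : (1/2:ℝ)^n * (((D.filter (fun k => lev k = n)).card : ℝ) / 4 ^ n) ≤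
        ∑ k ∈ D with lev k = n, 8 * c k ^ 3 := by
      have h4 : ∑ k ∈ D with lev k = n, (8 * c k ^ 3) ≥
          ∑ k ∈ D with lev k = n, ((1/2:ℝ)^n * (1/4) ^ n) := by
        refine Finset.sum_le_sum (fun k hk => ?_)
        simp only [mem_filter, hD] at hk
        obtain ⟨⟨_, h5, h6⟩, h7⟩ := hk
        have h8 := (hlev k h5 h6).1
        rw [h7] at h8
        have h9 : ((1/2:ℝ)^(n+1))^3 ≤ (c k)^3 := by
          gcongr
        calc (1/2:ℝ)^n * (1/4) ^ n = 8 * ((1/2:ℝ)^(n+1))^3 := by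
              rw [show (1/4:ℝ)^n = ((1/2)^n)^2 by rw [← pow_mul, mul_comm, pow_mul]; norm_num]
              ring
          _ ≤ 8 * c k ^ 3 := by linarith
      rw [Finset.sum_const, nsmul_eq_mul] at h4
      refine le_trans (le_of_eq ?_) h4
      rw [one_div_pow (4:ℝ)]
      field_simp
    calc (1/2:ℝ)^n * ∑ k ∈ D with lev k = n, x k ≤
          (1/2:ℝ)^n * (2 * n + 1 + ((D.filter (fun k => lev k = n)).card : ℝ) / 4 ^ n) := by
            gcongr
      _ = (1/2:ℝ)^n * (2 * n + 1) +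
          (1/2:ℝ)^n * (((D.filter (fun k => lev k = n)).card : ℝ) / 4 ^ n) := by ring
      _ ≤ _ := by linarith
  have hsum := Finset.sum_le_sum hlevel
  rw [Finset.sum_add_distrib, geom_aux, ← hfib,
    Finset.sum_fiberwise_of_maps_to (g := lev) (t := range N)
      (fun k hk => Finset.mem_range.2 (hN k hk))] at hsum
  have hDh : ∑ k ∈ D, 8 * c k ^ 3 = ∑ k ∈ D, hfun (c k) := by
    refine Finset.sum_congr rfl (fun k hk => ?_)
    simp only [mem_filter, hD] at hk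
    unfold hfun
    rw [if_pos hk.2.2]
  rw [← Finset.sum_filter_add_sum_filter_not A (fun k => 0 < c k ∧ c k ≤ 1) (fun k => hfun (c k))]
  rw [hDh] at hsum
  have : (0:ℝ) ≤ (4 * N + 6) * (1/2) ^ N := by positivity
  linarith

end Pool.Agent.Work.N6eec66
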